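import Pool.Agent.U707.LI.AllP

/-!
# The weak Serre conjecture for totally real fields: sums of forms of mixed weights and levels suffice

`p` is an odd prime, `k = 𝔽̄_p`, `K` a number field (for instance totally real), `R` a continuous
irreducible representation of dimension two of its Galois group over `k`. `M j` are finitely many
finite dimensional spaces over `k` (for instance the spaces of mod `p` Hilbert modular forms of
weights `w_j` and levels `n_j`), with commuting Hecke operators `H j v` for `v` outside of a set
`S`, and with two-dimensional pseudorepresentations with values in the Hecke algebras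
(Hida, Rogawski-Tunnell, Ohta, Carayol, Wiles, Taylor).

Suppose that there are forms `c_j` in `M j`, not necessarily eigenforms, and linear forms `l_j` (for
instance the first coefficient), with `tr R(Frob_v) = ∑ l_j(T_v c_j)` for all places `v` outside of
a set of density zero. Then for some `j` there is an eigenform in `M j`, of the weight `w_j` and
level `n_j`, with the eigenvalues `tr R(Frob_v)` for ALL `v` outside of `S`.

Parts of the proof are by helper141, helper851 and helper591 (see `Pool.Agent.U707.LI.AllP`).
-/

set_option autoImplicit false

namespace Pool.Agent.Results.MP_cab3fc_nt.MixedWeights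

open NumberField IsDedekindDomain Module Pool.Agent.W401.Cheb Pool.Agent.U707.LI

/-- **Sums of forms of mixed weights and levels suffice for the modularity.** -/
theorem result {K : Type} [Field K] [NumberField K] {p : ℕ} [Fact p.Prime] (hp : p ≠ 2)
    (R : ModPRep K (AlgebraicClosure (ZMod p)))
    -- the spaces of forms and the Hecke operators
    {J : Type} [Fintype J] {M : J → Type} [∀ j, AddCommGroup (M j)]
    [∀ j, Module (AlgebraicClosure (ZMod p)) (M j)]
    [∀ j, FiniteDimensional (AlgebraicClosure (ZMod p)) (M j)]
    {S : Set (HeightOneSpectrum (𝓞 K))} (hS : DensityZero S)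
    (H : ∀ j, HeightOneSpectrum (𝓞 K) → Module.End (AlgebraicClosure (ZMod p)) (M j))
    (hH : ∀ j, HasGalois S (H j))
    -- the forms, the linear forms and the relation
    (c : ∀ j, M j) (l : ∀ j, M j →ₗ[AlgebraicClosure (ZMod p)] AlgebraicClosure (ZMod p))
    {B : Set (HeightOneSpectrum (𝓞 K))} (hB : DensityZero B)
    (h : ∀ v ∉ B, v ∉ S ∧ ∀ σ, IsFrob v σ → R.tr σ = ∑ j, l j (H j v (c j))) :
    ∃ j, ∃ c' : M j, c' ≠ 0 ∧ ∀ v ∉ S, ∀ σ, IsFrob v σ → H j v c' = R.tr σ • c' :=
  modPSum (two_ne_zero' hp) R hS H hH c l hB h

end Pool.Agent.Results.MP_cab3fc_nt.MixedWeights
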